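import Pool.Agent.Helper79.ZFA.Final

/-!
# In ZFA, the existence of bases implies the axiom of choice

In every model of ZFA, set theory with atoms, in which every vector space over every field has a
basis, the axiom of choice holds.  By the completeness theorem, ZFA proves VB implies AC.

Outline of the proof, which is carried out inside an arbitrary model.

* Bases imply the axiom of multiple choice: a simplified version of an argument of Blass, with
  the field of rational functions over an infinite field and its subfield of elements of degree
  zero in the variables of each member of the given family.
* Multiple choice implies that every set has a map with finite fibres to a well-ordered set.
* Multiple choice and bases over the two-element field imply that every Boolean ring has a maximal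
  ideal.  For a proper ideal `I` with infinite quotient, bases of the quotient give infinite
  well-ordered families of elements of the quotient; multiple choice selects finitely many such
  families for each `I`, and from them an element of the quotient other than `0` and `1` can be
  defined, hence a strictly larger proper ideal.  A fixed point argument gives a proper ideal with
  finite quotient.
* Hence choice from families of finite sets, and, again by multiple choice, the axiom of choice.
-/

set_option autoImplicit false

namespace Pool.Agent.Results.MP_41b158_lc.BasesImplyChoice

open Pool.Agent.Helper79.ZFA

/-- **ZFA proves that the existence of bases implies the axiom of choice**: every model
`(M, E, A)` of ZFA in which every vector space has a basis satisfies the axiom of choice. -/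
theorem result (M : Type) (E : M → M → Prop) (A : M → Prop) (hZFA : IsZFA M E A) (hVB : VB E) :
    AC E :=
  ac_of_vb_model M E A hZFA hVB

end Pool.Agent.Results.MP_41b158_lc.BasesImplyChoice
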